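import Pool.Agent.Helper72.EP.Spec1

/-! Disjoint connected sets of large rank -/

namespace ErdPos

open Finset

section pathr

variable {V : Type} [DecidableEq V] {G : SimpleGraph V}

lemma pathr_path {C : Finset V} (hC : Conn G C) {v : V} (hv : v ∈ C) :
    ∀ w ∈ C, ∃ L : List V, L.Nodup ∧ L.IsChain G.Adj ∧ (∀ x ∈ L, x ∈ C) ∧
      L.head? = some w ∧ L.getLast? = some v := by
  classical
  set S : Finset V := C.filter (fun w => ∃ L : List V, L.Nodup ∧ L.IsChain G.Adj ∧
    (∀ x ∈ L, x ∈ C) ∧ L.head? = some w ∧ L.getLast? = some v) with hS
  have hvS : v ∈ S := by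
    rw [hS, mem_filter]
    refine ⟨hv, [v], List.nodup_singleton v, List.isChain_singleton v, ?_, rfl, rfl⟩
    intro x hx
    rw [List.mem_singleton] at hx
    rw [hx]
    exact hv
  have hSC : S ⊆ C := filter_subset _ _
  by_cases hne : S = C
  · intro w hw
    rw [← hne, hS, mem_filter] at hw
    exact hw.2
  exfalso
  obtain ⟨a, ha, b, hb, hab⟩ := hC.2 S hSC ⟨v, hvS⟩ hne
  rw [mem_sdiff] at hb
  apply hb.2
  rw [hS, mem_filter] at ha ⊢
  obtain ⟨haC, L, h1, h2, h3, h4, h5⟩ := ha
  refine ⟨hb.1, ?_⟩
  by_cases hbL : b ∈ L
  · obtain ⟨s, t, hst⟩ := List.append_of_mem hbL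
    subst hst
    refine ⟨b :: t, ?_, ?_, ?_, rfl, ?_⟩
    · exact (List.nodup_append.1 h1).2.1
    · exact (List.isChain_append.1 h2).2.1
    · intro x hx
      exact h3 x (List.mem_append_right _ hx)
    · rw [← h5, List.getLast?_append_of_ne_nil _ (List.cons_ne_nil _ _)]
  · cases L with
    | nil => simp at h4
    | cons c t =>
      have hca : c = a := by simpa using h4
      subst hca
      refine ⟨b :: c :: t, ?_, ?_, ?_, rfl, ?_⟩
      · exact List.nodup_cons.2 ⟨hbL, h1⟩
      · exact List.isChain_cons_cons.2 ⟨hab.symm, h2⟩
      · intro x hx
        rcases List.mem_cons.1 hx with h | h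
        · rw [h]; exact hb.1
        · exact h3 x h
      · rw [← h5]
        rfl

lemma pathr_conn (l : List V) (hl : l ≠ []) (hc : l.IsChain G.Adj) : Conn G l.toFinset := by
  induction l with
  | nil => exact absurd rfl hl
  | cons a t ih =>
    cases t with
    | nil => simpa using conn_singleton (G := G) a
    | cons b t =>
      rw [List.isChain_cons_cons] at hc
      have h1 := ih (List.cons_ne_nil _ _) hc.2
      have h2 : b ∈ (b :: t).toFinset := by simp
      have h3 := h1.insert h2 hc.1.symm
      rwa [List.toFinset_cons]

end pathr

theorem st_PATHR (h1 : ST_RK1) (h2 : ST_RK2) : ST_PATHR := by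
  intro V _ _ G F W q M k hW hMk hk
  classical
  obtain ⟨r1, r2, r3, r4, r5, -, -⟩ := h1 V G F W q hW
  have key : ∀ m, m ≤ q → ∃ l : List V, (l.Nodup ∧ l.IsChain G.Adj ∧ ∀ x ∈ l, x ∈ W) ∧
      m ≤ rk G F W q l.toFinset := by
    intro m
    induction m with
    | zero =>
      intro _
      exact ⟨[], ⟨List.nodup_nil, List.isChain_nil, by simp⟩, Nat.zero_le _⟩
    | succ m ih =>
      intro hm
      obtain ⟨l0, hl0, hr0⟩ := ih (by omega)
      have hex : ∃ n, ∃ l : List V, (l.Nodup ∧ l.IsChain G.Adj ∧ ∀ x ∈ l, x ∈ W) ∧
          m ≤ rk G F W q l.toFinset ∧ l.length = n := ⟨_, l0, hl0, hr0, rfl⟩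
      obtain ⟨l, hl, hr, hlen⟩ := Nat.find_spec hex
      have hmin : ∀ l' : List V, (l'.Nodup ∧ l'.IsChain G.Adj ∧ ∀ x ∈ l', x ∈ W) →
          l'.length < l.length → rk G F W q l'.toFinset < m := by
        intro l' hl' hlt
        by_contra hcon
        push Not at hcon
        rw [hlen] at hlt
        exact Nat.find_min hex hlt ⟨l', hl', hcon, rfl⟩
      by_cases hc : m + 1 ≤ rk G F W q l.toFinset
      · exact ⟨l, hl, hc⟩
      have hrm : rk G F W q l.toFinset = m := by omega
      have hlW : l.toFinset ⊆ W := by
        intro x hx
        exact hl.2.2 x (List.mem_toFinset.1 hx)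
      obtain ⟨c1, -, -, cB, -, -, -, -, -, -, -⟩ := h2 V G F W q hW l.toFinset hlW (by omega)
      cases l with
      | nil =>
        obtain ⟨w, hw⟩ := cB.2.1.1
        rw [mem_sdiff] at hw
        refine ⟨[w], ⟨List.nodup_singleton w, List.isChain_singleton w, ?_⟩, ?_⟩
        · intro x hx
          rw [List.mem_singleton] at hx
          rw [hx]
          exact hw.1
        · have h3 : rk G F W q (insert w ([] : List V).toFinset) ≠
              rk G F W q ([] : List V).toFinset := by
            intro he
            apply hw.2
            unfold cl
            rw [mem_filter]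
            exact ⟨hw.1, he⟩
          have h4 := r3 ([] : List V).toFinset (insert w ([] : List V).toFinset)
            (subset_insert _ _)
          have h5 : ([w] : List V).toFinset = insert w ([] : List V).toFinset := by simp
          rw [h5]
          omega
      | cons v P =>
        obtain ⟨hnd, hch, hin⟩ := hl
        have hP : P.Nodup ∧ P.IsChain G.Adj ∧ ∀ x ∈ P, x ∈ W := by
          refine ⟨(List.nodup_cons.1 hnd).2, ?_, fun x hx => hin x (List.mem_cons_of_mem _ hx)⟩
          cases P with
          | nil => exact List.isChain_nil
          | cons a t => exact (List.isChain_cons_cons.1 hch).2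
        have hPr : rk G F W q P.toFinset < m := hmin P hP (by simp)
        have hPW : P.toFinset ⊆ W := fun x hx => hP.2.2 x (List.mem_toFinset.1 hx)
        obtain ⟨d1, -, -, dB, -, -, -, -, d9, -, -⟩ :=
          h2 V G F W q hW P.toFinset hPW (by omega)
        have hvW : v ∈ W := hin v List.mem_cons_self
        have hvC : v ∈ W \ cl G F W q P.toFinset := by
          rw [mem_sdiff]
          refine ⟨hvW, fun h => ?_⟩
          unfold cl at h
          rw [mem_filter] at h
          have h6 : (v :: P).toFinset = insert v P.toFinset := List.toFinset_cons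
          rw [h6, h.2] at hrm
          omega
        have hcl : cl G F W q P.toFinset ⊆ cl G F W q (v :: P).toFinset := by
          apply d9 _ hlW (by omega)
          refine subset_trans ?_ c1
          rw [List.toFinset_cons]
          exact subset_insert _ _
        obtain ⟨w, hw⟩ := cB.2.1.1
        rw [mem_sdiff] at hw
        have hwC : w ∈ W \ cl G F W q P.toFinset :=
          mem_sdiff.2 ⟨hw.1, fun h => hw.2 (hcl h)⟩
        obtain ⟨L, g1, g2, g3, g4, g5⟩ := pathr_path dB.2.1 hvC w hwC
        refine ⟨L ++ P, ⟨?_, ?_, ?_⟩, ?_⟩
        · rw [List.nodup_append]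
          refine ⟨g1, hP.1, ?_⟩
          intro a ha b hb hab
          rw [hab] at ha
          have := mem_sdiff.1 (g3 b ha)
          exact this.2 (d1 (List.mem_toFinset.2 hb))
        · rw [List.isChain_append]
          refine ⟨g2, hP.2.1, ?_⟩
          intro x hx y hy
          rw [g5] at hx
          have hxv : v = x := by simpa using hx
          subst hxv
          cases P with
          | nil => simp at hy
          | cons a t =>
            have hay : a = y := by simpa using hy
            subst hay
            exact (List.isChain_cons_cons.1 hch).1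
        · intro x hx
          rcases List.mem_append.1 hx with h | h
          · exact (mem_sdiff.1 (g3 x h)).1
          · exact hP.2.2 x h
        · have hsub : insert w (v :: P).toFinset ⊆ (L ++ P).toFinset := by
            intro x hx
            rw [List.mem_toFinset, List.mem_append]
            rw [mem_insert, List.mem_toFinset, List.mem_cons] at hx
            rcases hx with h | h | h
            · left
              rw [h]
              exact List.mem_of_mem_head? (by rw [g4]; rfl)
            · left
              rw [h]
              exact List.mem_of_getLast? g5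
            · right
              exact h
          have h3 : rk G F W q (insert w (v :: P).toFinset) ≠
              rk G F W q (v :: P).toFinset := by
            intro he
            apply hw.2
            unfold cl
            rw [mem_filter]
            exact ⟨hw.1, he⟩
          have h4 := r3 (v :: P).toFinset (insert w (v :: P).toFinset) (subset_insert _ _)
          have h5 := r3 _ _ hsub
          omega
  obtain ⟨l, hl, hr⟩ := key (M * k) hMk
  -- cutting
  have hcut : ∀ (M : ℕ) (l : List V), l.Nodup → l.IsChain G.Adj →
      M * k ≤ rk G F W q l.toFinset →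
      ∃ P : Fin M → Finset V, (∀ i, P i ⊆ l.toFinset ∧ Conn G (P i) ∧
        k ≤ rk G F W q (P i)) ∧ ∀ i j, i ≠ j → Disjoint (P i) (P j) := by
    intro M
    induction M with
    | zero =>
      intro l _ _ _
      exact ⟨fun i => i.elim0, fun i => i.elim0, fun i => i.elim0⟩
    | succ M ih =>
      intro l hnd hch hr
      have hr' : k ≤ rk G F W q l.toFinset := le_trans (by nlinarith) hr
      have hex : ∃ n, k ≤ rk G F W q (l.take n).toFinset := ⟨l.length, by simpa using hr'⟩
      obtain ⟨n, hn, hmin⟩ : ∃ n, k ≤ rk G F W q (l.take n).toFinset ∧
          ∀ m, m < n → rk G F W q (l.take m).toFinset < k :=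
        ⟨Nat.find hex, Nat.find_spec hex, fun m hm => not_le.1 (Nat.find_min hex hm)⟩
      have hspl : l.take n ++ l.drop n = l := List.take_append_drop n l
      have hrA : rk G F W q (l.take n).toFinset ≤ k := by
        cases n with
        | zero =>
          have h3 := r2 (l.take 0).toFinset
          simp only [List.take_zero, List.toFinset_nil, card_empty] at h3 ⊢
          omega
        | succ n =>
          have h3 := hmin n (Nat.lt_succ_self n)
          rw [List.take_add_one]
          cases h4 : l[n]? with
          | none =>
            simp only [Option.toList_none, List.append_nil]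
            omega
          | some x =>
            have h5 : (l.take n ++ (some x).toList).toFinset = insert x (l.take n).toFinset := by
              ext z
              simp [or_comm]
            rw [h5]
            have h6 := r4 (l.take n).toFinset x
            omega
      have hne : l.take n ≠ [] := by
        intro h3
        rw [h3] at hn
        have h4 := r2 ([] : List V).toFinset
        simp only [List.toFinset_nil, card_empty] at h4 hn
        omega
      have hrB : M * k ≤ rk G F W q (l.drop n).toFinset := by
        have h3 := r5 (l.take n).toFinset (l.drop n).toFinset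
        rw [← List.toFinset_append, hspl] at h3
        have h4 : (M + 1) * k = M * k + k := by ring
        omega
      rw [← hspl] at hnd hch
      have hnd' := List.nodup_append.1 hnd
      have hch' := List.isChain_append.1 hch
      obtain ⟨P', hP1, hP2⟩ := ih (l.drop n) hnd'.2.1 hch'.2.1 hrB
      have hdis : Disjoint (l.take n).toFinset (l.drop n).toFinset := by
        rw [Finset.disjoint_left]
        intro a ha hb
        exact hnd'.2.2 a (List.mem_toFinset.1 ha) a (List.mem_toFinset.1 hb) rfl
      have hsub1 : (l.take n).toFinset ⊆ l.toFinset := by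
        intro x hx
        exact List.mem_toFinset.2 (List.mem_of_mem_take (List.mem_toFinset.1 hx))
      have hsub2 : (l.drop n).toFinset ⊆ l.toFinset := by
        intro x hx
        exact List.mem_toFinset.2 (List.mem_of_mem_drop (List.mem_toFinset.1 hx))
      refine ⟨Fin.cons (l.take n).toFinset P', ?_, ?_⟩
      · intro i
        refine Fin.cases ?_ (fun i => ?_) i
        · exact ⟨hsub1, pathr_conn _ hne hch'.1, hn⟩
        · rw [Fin.cons_succ]
          exact ⟨(hP1 i).1.trans hsub2, (hP1 i).2⟩
      · intro i j
        refine Fin.cases (fun j => ?_) (fun i => ?_) i j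
        · refine Fin.cases ?_ (fun j => ?_) j
          · intro h
            exact absurd rfl h
          · intro _
            rw [Fin.cons_zero, Fin.cons_succ]
            exact hdis.mono_right (hP1 j).1
        · intro j
          refine Fin.cases ?_ (fun j => ?_) j
          · intro _
            rw [Fin.cons_zero, Fin.cons_succ]
            exact (hdis.mono_right (hP1 i).1).symm
          · intro h
            rw [Fin.cons_succ, Fin.cons_succ]
            exact hP2 i j (fun e => h (by rw [e]))
  obtain ⟨P, hP1, hP2⟩ := hcut M l hl.1 hl.2.1 hr
  refine ⟨P, fun i => ⟨(hP1 i).1.trans ?_, (hP1 i).2⟩, hP2⟩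
  intro x hx
  exact hl.2.2 x (List.mem_toFinset.1 hx)

end ErdPos
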